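import Pool.Agent.V11216.LoopR

-- use the natural `ℂ`-algebra structure of `LaurentSeries ℂ`
attribute [-instance] HahnSeries.powerSeriesAlgebra

namespace Pool.Agent.Results.MP_1e3651_al.CubicRelations

open Pool.Agent.V11216.Loop TensorProduct Submodule

/-- `𝔰𝔬₃(ℂ)`: skew-symmetric `3 × 3` matrices. -/
abbrev so3 : Type := LieAlgebra.Orthogonal.so (Fin 3) ℂ

/-- the basis `e₁ = E₁₂ - E₂₁`, `e₂ = E₁₃ - E₃₁`, `e₃ = E₂₃ - E₃₂` (indexed by `0, 1, 2`). -/
def e : Fin 3 → so3 :=
  ![⟨!![0, 1, 0; -1, 0, 0; 0, 0, 0], by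
      rw [LieAlgebra.Orthogonal.mem_so]; ext i j; fin_cases i <;> fin_cases j <;> simp⟩,
    ⟨!![0, 0, 1; 0, 0, 0; -1, 0, 0], by
      rw [LieAlgebra.Orthogonal.mem_so]; ext i j; fin_cases i <;> fin_cases j <;> simp⟩,
    ⟨!![0, 0, 0; 0, 0, 1; 0, -1, 0], by
      rw [LieAlgebra.Orthogonal.mem_so]; ext i j; fin_cases i <;> fin_cases j <;> simp⟩]

theorem so3_skew (A : so3) (i j : Fin 3) : A.1 j i = - A.1 i j := by
  have := (LieAlgebra.Orthogonal.mem_so (n := Fin 3) (R := ℂ) A.1).1 A.2
  have h := congrFun (congrFun this i) j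
  simpa using h

noncomputable def equiv : so3 ≃ₗ[ℂ] (Fin 3 → ℂ) where
  toFun A := ![A.1 0 1, A.1 0 2, A.1 1 2]
  map_add' A B := by
    ext i
    fin_cases i <;> simp
  map_smul' c A := by
    ext i
    fin_cases i <;> simp
  invFun c := c 0 • e 0 + c 1 • e 1 + c 2 • e 2
  left_inv A := by
    have h00 : A.1 0 0 = 0 := by
      have := so3_skew A 0 0
      exact self_eq_neg.1 this
    have h11 : A.1 1 1 = 0 := by
      have := so3_skew A 1 1
      exact self_eq_neg.1 this
    have h22 : A.1 2 2 = 0 := by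
      have := so3_skew A 2 2
      exact self_eq_neg.1 this
    apply Subtype.ext
    ext i j
    fin_cases i <;> fin_cases j <;>
      simp [e, h00, h11, h22, so3_skew A 0 1, so3_skew A 0 2, so3_skew A 1 2]
  right_inv c := by
    ext i
    fin_cases i <;> simp [e]

noncomputable def b : Module.Basis (Fin 3) ℂ so3 := Module.Basis.ofEquivFun equiv

theorem b_apply (i : Fin 3) : b i = e i := by
  unfold b
  rw [Module.Basis.coe_ofEquivFun]
  show (Function.update (0 : Fin 3 → ℂ) i 1) 0 • e 0 + _ • e 1 + _ • e 2 = e i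
  fin_cases i <;> simp [Function.update]

theorem coe_bra (x y : so3) : (⁅x, y⁆ : so3).1 = x.1 * y.1 - y.1 * x.1 := rfl

theorem soBasis : SoBasis b where
  bra i := by
    rw [b_apply, b_apply, b_apply]
    apply Subtype.ext
    rw [coe_bra]
    fin_cases i
    · ext i j
      fin_cases i <;> fin_cases j <;> simp [e]
    · ext i j
      fin_cases i <;> fin_cases j <;> simp [e]
    · ext i j
      fin_cases i <;> fin_cases j <;> simp [e]

/-- **Q1.** Whenever `E₁, E₂, E₃` (with `Eᵢ - eᵢ/λ` a Taylor series) satisfy (R), the Lie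
subalgebra they generate is factoring. -/
theorem result (E : Fin 3 → LoopAlg so3) (hE : ∀ i, E i - overLambda (e i) ∈ Taylor so3)
    (hR : RelR E) : Factoring (LieSubalgebra.lieSpan ℂ (LoopAlg so3) (Set.range E)) := by
  apply factoring_of_RelR b soBasis E _ hR
  intro i
  rw [b_apply]
  exact hE i

end Pool.Agent.Results.MP_1e3651_al.CubicRelations
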